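import Pool.Agent.N875.X15.TamU
import Pool.Agent.N875.X15.Tam2

/-!
# The Tamagawa number in the case of split multiplicative reduction of type `I₄`

The equation is `y² = (x - a) (x - b) (x - c)` over `ℚ_p`, `p` odd, `v (a - b) = 2` and `a - c` is the
square of a unit. The group of components is cyclic of order four.
-/

set_option autoImplicit false
set_option linter.unusedSectionVars false

namespace Pool.Agent.N218.T21

open WeierstrassCurve
open Pool.Agent.TH841.SH (IsR)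
open Pool.Agent.Y700 (PtP SingRed E0 tam VR)
open Pool.Agent.Y809.BSD14 (t_E0)
open Pool.Agent.N875.X15 (isR_eqn add_T dbl_T norm_two norm_int norm_add_lt norm_sub_lt norm_mul_lt
  norm_mul_lt')

open scoped Classical

/-- the index of a subgroup from representatives -/
theorem index_of3 {G : Type} [AddCommGroup G] (H : AddSubgroup G) {n : ℕ} (T : Fin n → G)
    (hs : ∀ P, ∃ i, P - T i ∈ H) (hi : ∀ i j, T i - T j ∈ H → i = j) : H.index = n := by
  rw [AddSubgroup.index, ← Nat.card_eq_of_bijective (α := Fin n)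
    (fun i => (QuotientAddGroup.mk (T i) : G ⧸ H)), Nat.card_eq_fintype_card, Fintype.card_fin]
  constructor
  · intro i j hij
    simp only at hij
    rw [QuotientAddGroup.eq] at hij
    refine (hi j i ?_).symm
    have e : T j - T i = -T i + T j := by abel
    rw [e]
    exact hij
  · intro q
    induction q using QuotientAddGroup.induction_on with
    | H P =>
      obtain ⟨i, hPi⟩ := hs P
      refine ⟨i, ?_⟩
      rw [QuotientAddGroup.eq]
      have e : -T i + P = P - T i := by abel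
      rw [e]
      exact hPi

section norms

variable {p : ℕ} [hp : Fact p.Prime]

theorem nadd {a b : ℚ_[p]} (h : ‖a‖ < ‖b‖) : ‖a + b‖ = ‖b‖ := by
  rw [IsUltrametricDist.norm_add_eq_max_of_norm_ne_norm h.ne]
  exact max_eq_right h.le

theorem nadd' {a b : ℚ_[p]} (h : ‖a‖ < ‖b‖) : ‖b + a‖ = ‖b‖ := by
  rw [add_comm]
  exact nadd h

theorem nmax {a b : ℚ_[p]} {r : ℝ} (ha : ‖a‖ < r) (hb : ‖b‖ < r) : ‖a + b‖ < r :=
  (Padic.nonarchimedean a b).trans_lt (max_lt ha hb)

theorem nmax' {a b : ℚ_[p]} {r : ℝ} (ha : ‖a‖ < r) (hb : ‖b‖ < r) : ‖a - b‖ < r := by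
  rw [sub_eq_add_neg]
  exact nmax ha (by rwa [norm_neg])

theorem e_pos : (0 : ℝ) < (p : ℝ)⁻¹ := inv_pos.2 (by exact_mod_cast hp.out.pos)

theorem e_lt : (p : ℝ)⁻¹ < 1 := inv_lt_one_of_one_lt₀ (by exact_mod_cast hp.out.one_lt)

/-- the norms are discrete -/
theorem disc1 {z : ℚ_[p]} (h : ‖z‖ < 1) : ‖z‖ ≤ (p : ℝ)⁻¹ := by
  have h1 := (Padic.norm_le_pow_iff_norm_lt_pow_add_one z (-1)).2 (by
    norm_num
    exact h)
  rwa [zpow_neg_one] at h1

theorem disc2 {z : ℚ_[p]} (h : ‖z‖ < (p : ℝ)⁻¹) : ‖z‖ ≤ (p : ℝ)⁻¹ ^ 2 := by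
  have h1 := (Padic.norm_le_pow_iff_norm_lt_pow_add_one z (-2)).2 (by
    have e : ((-2 : ℤ) + 1) = -1 := by norm_num
    rw [e, zpow_neg_one]
    exact h)
  have e : ((p : ℝ) ^ (-2 : ℤ)) = (p : ℝ)⁻¹ ^ 2 := by
    rw [zpow_neg, inv_pow]
    norm_cast
  rwa [e] at h1

end norms

section split

variable {p : ℕ} [hp : Fact p.Prime] {W : WeierstrassCurve ℤ}

/-- the hypotheses -/
structure Spl (W : WeierstrassCurve ℤ) (p : ℕ) [hp : Fact p.Prime] (a b c κ : ℚ_[p]) : Prop where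
  p2 : p ≠ 2
  R : IsR (W.map (Int.castRingHom ℚ_[p])) a b c
  sing : ∀ x y, (W.map (Int.castRingHom ℚ_[p])).toAffine.Nonsingular x y →
    (SingRed W p x y ↔ ‖x - a‖ < 1)
  ab : ‖b - a‖ = (p : ℝ)⁻¹ ^ 2
  ac : a - c = κ ^ 2
  k1 : ‖κ‖ = 1

variable {a b c κ : ℚ_[p]}

theorem Spl.neg (H : Spl W p a b c κ) : Spl W p a b c (-κ) :=
  ⟨H.p2, H.R, H.sing, H.ab, by rw [H.ac]; ring, by rw [norm_neg, H.k1]⟩

variable (H : Spl W p a b c κ)

include H

theorem Spl.mem {x y : ℚ_[p]} (h : (W.map (Int.castRingHom ℚ_[p])).toAffine.Nonsingular x y) :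
    (Affine.Point.some x y h : PtP W p) ∈ E0 W p ↔ 1 ≤ ‖x - a‖ := by
  rw [t_E0, ← not_lt]
  constructor
  · intro h1 h2
    exact h1 x y h rfl ((H.sing x y h).2 h2)
  · intro h1 x' y' h' he hsing
    injection he with e1 e2
    subst e1
    subst e2
    exact h1 ((H.sing _ _ h').1 hsing)

theorem Spl.eqn {x y : ℚ_[p]} (h : (W.map (Int.castRingHom ℚ_[p])).toAffine.Nonsingular x y) :
    y ^ 2 = (x - a) * ((x - a) - (b - a)) * ((x - a) + κ ^ 2) := by
  rw [(isR_eqn H.R).1 h.1, ← H.ac]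
  ring

theorem Spl.n2 : ‖(2 : ℚ_[p])‖ = 1 := norm_two H.p2

theorem Spl.n2k : ‖2 * κ‖ = 1 := by rw [norm_mul, H.n2, H.k1, one_mul]

/-- the slope of a point of the outer components -/
theorem Spl.two_slopes {x y : ℚ_[p]}
    (h : (W.map (Int.castRingHom ℚ_[p])).toAffine.Nonsingular x y) (hx : ‖x - a‖ = (p : ℝ)⁻¹) :
    ‖y / (x - a) - κ‖ < 1 ∨ ‖y / (x - a) + κ‖ < 1 := by
  have e0 := e_pos (p := p)
  have e1 := e_lt (p := p)
  have hu : x - a ≠ 0 := by
    intro h0
    rw [h0, norm_zero] at hx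
    exact e0.ne hx
  have he := H.eqn h
  set u := x - a with hu'
  set β := b - a with hβ
  have hb : ‖β‖ = (p : ℝ)⁻¹ ^ 2 := H.ab
  have key : (y / u - κ) * (y / u + κ) = u + (-β + -(β * κ ^ 2) / u) := by
    have : (y / u - κ) * (y / u + κ) = y ^ 2 / u ^ 2 - κ ^ 2 := by
      field_simp
      ring
    rw [this, he]
    field_simp
    ring
  have n : ‖(y / u - κ) * (y / u + κ)‖ < 1 := by
    rw [key]
    refine nmax (by rw [hx]; exact e1) (nmax ?_ ?_)
    · rw [norm_neg, hb]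
      nlinarith
    · rw [norm_div, norm_neg, norm_mul, norm_pow, H.k1, hb, hx]
      rw [one_pow, mul_one, pow_two, mul_div_assoc, div_self e0.ne', mul_one]
      exact e1
  by_contra hcon
  push Not at hcon
  rw [norm_mul] at n
  nlinarith [hcon.1, hcon.2]

/-- the sum of two points on opposite components -/
theorem Spl.opp {x1 y1 x2 y2 : ℚ_[p]}
    (h1 : (W.map (Int.castRingHom ℚ_[p])).toAffine.Nonsingular x1 y1)
    (h2 : (W.map (Int.castRingHom ℚ_[p])).toAffine.Nonsingular x2 y2)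
    (n1 : ‖x1 - a‖ = (p : ℝ)⁻¹) (n2 : ‖x2 - a‖ = (p : ℝ)⁻¹) (s1 : ‖y1 / (x1 - a) - κ‖ < 1)
    (s2 : ‖y2 / (x2 - a) + κ‖ < 1) :
    (Affine.Point.some x1 y1 h1 + Affine.Point.some x2 y2 h2 : PtP W p) ∈ E0 W p := by
  have e0 := e_pos (p := p)
  have e1 := e_lt (p := p)
  have hu1 : x1 - a ≠ 0 := by
    intro h0
    rw [h0, norm_zero] at n1
    exact e0.ne n1
  have hu2 : x2 - a ≠ 0 := by
    intro h0
    rw [h0, norm_zero] at n2
    exact e0.ne n2
  by_cases hxx : x1 = x2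
  · subst hxx
    by_cases hyy : y1 = (W.map (Int.castRingHom ℚ_[p])).toAffine.negY x1 y2
    · rw [Affine.Point.add_of_Y_eq rfl hyy]
      exact (E0 W p).zero_mem
    · exfalso
      have q1 := H.eqn h1
      have q2 := H.eqn h2
      have e3 : (y1 - y2) * (y1 + y2) = 0 := by linear_combination q1 - q2
      rcases mul_eq_zero.1 e3 with h | h
      · have h12 : y1 = y2 := sub_eq_zero.1 h
        subst h12
        have := nmax' s2 s1
        have e4 : y1 / (x1 - a) + κ - (y1 / (x1 - a) - κ) = 2 * κ := by ring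
        rw [e4, H.n2k] at this
        exact lt_irrefl _ this
      · apply hyy
        rw [Affine.negY, H.R.h1, H.R.h3]
        linear_combination h
  · rw [Affine.Point.add_of_X_ne hxx, H.mem, Affine.addX, H.R.h1, H.R.h2,
      Affine.slope_of_X_ne hxx]
    have hd : x1 - x2 ≠ 0 := sub_ne_zero.2 hxx
    obtain ⟨r1, hr1⟩ : ∃ r, r = y1 / (x1 - a) := ⟨_, rfl⟩
    obtain ⟨r2, hr2⟩ : ∃ r, r = y2 / (x2 - a) := ⟨_, rfl⟩
    rw [← hr1] at s1
    rw [← hr2] at s2
    have hy1 : y1 = r1 * (x1 - a) := by rw [hr1, div_mul_cancel₀ _ hu1]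
    have hy2 : y2 = r2 * (x2 - a) := by rw [hr2, div_mul_cancel₀ _ hu2]
    set l := (y1 - y2) / (x1 - x2) with hl
    have hld : l * (x1 - x2) = y1 - y2 := by rw [hl, div_mul_cancel₀ _ hd]
    have m1 : ‖(r1 - κ) * (x1 - a) + -((r2 + κ) * (x2 - a))‖ < (p : ℝ)⁻¹ := by
      refine nmax ?_ ?_
      · rw [norm_mul, n1]
        nlinarith
      · rw [norm_neg, norm_mul, n2]
        nlinarith
    have a1 : ‖(l - κ) * (x1 - x2)‖ = (p : ℝ)⁻¹ := by
      have e : (l - κ) * (x1 - x2) =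
          ((r1 - κ) * (x1 - a) + -((r2 + κ) * (x2 - a))) + 2 * κ * (x2 - a) := by
        rw [sub_mul, hld, hy1, hy2]
        ring
      have n : ‖2 * κ * (x2 - a)‖ = (p : ℝ)⁻¹ := by rw [norm_mul, H.n2k, n2, one_mul]
      rw [e, nadd (by rw [n]; exact m1), n]
    have a2 : ‖(l + κ) * (x1 - x2)‖ = (p : ℝ)⁻¹ := by
      have e : (l + κ) * (x1 - x2) =
          ((r1 - κ) * (x1 - a) + -((r2 + κ) * (x2 - a))) + 2 * κ * (x1 - a) := by
        rw [add_mul, hld, hy1, hy2]
        ring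
      have n : ‖2 * κ * (x1 - a)‖ = (p : ℝ)⁻¹ := by rw [norm_mul, H.n2k, n1, one_mul]
      rw [e, nadd (by rw [n]; exact m1), n]
    have hd1 : ‖x1 - x2‖ ≤ (p : ℝ)⁻¹ := by
      have e : x1 - x2 = (x1 - a) + -(x2 - a) := by ring
      rw [e]
      refine (Padic.nonarchimedean _ _).trans (max_le n1.le ?_)
      rw [norm_neg, n2]
    have hd0 : 0 < ‖x1 - x2‖ := norm_pos_iff.2 hd
    have hbig : 1 ≤ ‖l ^ 2 - κ ^ 2‖ := by
      have e : (l ^ 2 - κ ^ 2) * ((x1 - x2) * (x1 - x2)) =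
          ((l - κ) * (x1 - x2)) * ((l + κ) * (x1 - x2)) := by ring
      have e' := congrArg norm e
      rw [norm_mul, norm_mul, norm_mul, a1, a2] at e'
      by_contra hcon
      push Not at hcon
      nlinarith [norm_nonneg (l ^ 2 - κ ^ 2), mul_pos hd0 hd0, mul_pos e0 e0]
    have e5 : l ^ 2 + 0 * l - -(a + b + c) - x1 - x2 - a =
        (((b - a) + -(x1 - a)) + -(x2 - a)) + (l ^ 2 - κ ^ 2) := by
      rw [← H.ac]
      ring
    rw [e5, nadd]
    · exact hbig
    · refine lt_of_lt_of_le ?_ hbig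
      refine nmax (nmax ?_ ?_) ?_
      · rw [H.ab]
        nlinarith
      · rw [norm_neg, n1]
        exact e1
      · rw [norm_neg, n2]
        exact e1

/-- the double of a point of an outer component -/
theorem Spl.dbl {x y : ℚ_[p]} (h : (W.map (Int.castRingHom ℚ_[p])).toAffine.Nonsingular x y)
    (n1 : ‖x - a‖ = (p : ℝ)⁻¹) (s1 : ‖y / (x - a) - κ‖ < 1) :
    (Affine.Point.some x y h + Affine.Point.some x y h : PtP W p) ∉ E0 W p := by
  have e0 := e_pos (p := p)
  have e1 := e_lt (p := p)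
  have hu1 : x - a ≠ 0 := by
    intro h0
    rw [h0, norm_zero] at n1
    exact e0.ne n1
  obtain ⟨r, hr⟩ : ∃ r, r = y / (x - a) := ⟨_, rfl⟩
  rw [← hr] at s1
  have hy : y = r * (x - a) := by rw [hr, div_mul_cancel₀ _ hu1]
  have nr : ‖r‖ = 1 := by
    have e : r = (r - κ) + κ := by ring
    rw [e, nadd (by rw [H.k1]; exact s1), H.k1]
  have ny : ‖y‖ = (p : ℝ)⁻¹ := by rw [hy, norm_mul, nr, n1, one_mul]
  have hy0 : y ≠ 0 := by
    intro h0
    rw [h0, norm_zero] at ny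
    exact e0.ne ny
  have hyy : y ≠ (W.map (Int.castRingHom ℚ_[p])).toAffine.negY x y := by
    rw [Affine.negY, H.R.h1, H.R.h3]
    intro h0
    apply hy0
    have : (2 : ℚ_[p]) * y = 0 := by linear_combination h0
    exact (mul_eq_zero.1 this).resolve_left two_ne_zero
  rw [Affine.Point.add_of_Y_ne hyy, H.mem, Affine.addX, H.R.h1, H.R.h2,
    Affine.slope_of_Y_ne rfl hyy, Affine.negY, H.R.h1, H.R.h2, H.R.h3, H.R.h4, not_le]
  set l := (3 * x ^ 2 + 2 * -(a + b + c) * x + (a * b + a * c + b * c) - 0 * y) /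
    (y - (-y - 0 * x - 0)) with hl
  have hden : (y - (-y - 0 * x - 0)) = 2 * y := by ring
  have hld : (l - κ) * (2 * y) = (3 * ((x - a) * (x - a)) + -(2 * ((x - a) * (b - a)))) +
      (-((b - a) * κ ^ 2) + -(2 * κ * ((x - a) * (r - κ)))) := by
    have h2y : (2 : ℚ_[p]) * y ≠ 0 := mul_ne_zero two_ne_zero hy0
    rw [hl, hden, sub_mul, div_mul_cancel₀ _ h2y]
    have hc : c = a - κ ^ 2 := by rw [← H.ac]; ring
    rw [hc]
    linear_combination (-2 * κ) * hy
  have n3 : ‖(3 : ℚ_[p])‖ ≤ 1 := by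
    have := norm_int (p := p) 3
    push_cast at this
    exact this
  have nnum : ‖(l - κ) * (2 * y)‖ < (p : ℝ)⁻¹ := by
    rw [hld]
    refine nmax (nmax ?_ ?_) (nmax ?_ ?_)
    · rw [norm_mul, norm_mul, n1]
      nlinarith [norm_nonneg (3 : ℚ_[p]), mul_pos e0 e0]
    · rw [norm_neg, norm_mul, norm_mul, n1, H.n2, H.ab]
      nlinarith [mul_pos e0 e0, mul_pos (mul_pos e0 e0) e0]
    · rw [norm_neg, norm_mul, norm_pow, H.k1, H.ab]
      nlinarith
    · rw [norm_neg, norm_mul, H.n2k, norm_mul, n1]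
      nlinarith
  have nlk : ‖l - κ‖ < 1 := by
    rw [norm_mul, norm_mul, H.n2, ny, one_mul] at nnum
    by_contra hcon
    push Not at hcon
    nlinarith
  have nl : ‖l + κ‖ ≤ 1 := by
    have e : l + κ = (l - κ) + 2 * κ := by ring
    rw [e, nadd (by rw [H.n2k]; exact nlk), H.n2k]
  have e5 : l ^ 2 + 0 * l - -(a + b + c) - x - x - a =
      ((l - κ) * (l + κ) + (b - a)) + (-(x - a) + -(x - a)) := by
    have hc : c = a - κ ^ 2 := by rw [← H.ac]; ring
    rw [hc]
    ring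
  rw [e5]
  refine nmax (nmax ?_ ?_) (nmax ?_ ?_)
  · rw [norm_mul]
    nlinarith [norm_nonneg (l - κ), norm_nonneg (l + κ)]
  · rw [H.ab]
    nlinarith
  · rw [norm_neg, n1]
    exact e1
  · rw [norm_neg, n1]
    exact e1

omit H in
/-- the opposite point -/
theorem neg_pt (hR : IsR (W.map (Int.castRingHom ℚ_[p])) a b c) {x y : ℚ_[p]}
    (h : (W.map (Int.castRingHom ℚ_[p])).toAffine.Nonsingular x y) :
    ∃ h' : (W.map (Int.castRingHom ℚ_[p])).toAffine.Nonsingular x (-y),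
      (-Affine.Point.some x y h : PtP W p) = Affine.Point.some x (-y) h' := by
  have e : (W.map (Int.castRingHom ℚ_[p])).toAffine.negY x y = -y := by
    rw [Affine.negY, hR.h1, hR.h3]
    ring
  have h' := (Affine.nonsingular_neg x y).2 h
  rw [e] at h'
  refine ⟨h', ?_⟩
  rw [Affine.Point.neg_some]
  congr 1

/-- **The Tamagawa number in the case of split multiplicative reduction of type `I₄`.** -/
theorem Spl.tam4 (hT : (W.map (Int.castRingHom ℚ_[p])).toAffine.Nonsingular a 0)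
    (hQ : ∃ x y, (W.map (Int.castRingHom ℚ_[p])).toAffine.Nonsingular x y ∧
      ‖x - a‖ = (p : ℝ)⁻¹) : tam W p = 4 := by
  have e0 := e_pos (p := p)
  have e1 := e_lt (p := p)
  obtain ⟨x0, y0, hQ0, hx0⟩ := hQ
  -- choice of the sign of `κ`
  wlog hs : ‖y0 / (x0 - a) - κ‖ < 1 generalizing κ
  · refine this H.neg ?_
    have := (H.two_slopes hQ0 hx0).resolve_left hs
    rwa [sub_neg_eq_add]
  have hu0 : x0 - a ≠ 0 := by
    intro h0
    rw [h0, norm_zero] at hx0
    exact e0.ne hx0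
  have hx0a : x0 ≠ a := fun h0 => hu0 (by rw [h0, sub_self])
  set T : PtP W p := Affine.Point.some a 0 hT with hTd
  set Q : PtP W p := Affine.Point.some x0 y0 hQ0 with hQd
  obtain ⟨hQ0', hQn⟩ := neg_pt H.R hQ0
  have dT : T + T = 0 := dbl_T H.R hT
  have nT : -T = T := neg_eq_of_add_eq_zero_left dT
  have hTn : T ∉ E0 W p := by
    rw [hTd, H.mem, sub_self, norm_zero]
    norm_num
  have hQn' : Q ∉ E0 W p := by
    rw [hQd, H.mem, hx0, not_le]
    exact e1
  have hab : ‖a - b‖ = (p : ℝ)⁻¹ ^ 2 := by rw [norm_sub_rev]; exact H.ab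
  have hac : ‖a - c‖ = 1 := by rw [H.ac, norm_pow, H.k1, one_pow]
  -- the translation by `T`
  have tr : ∀ (x y : ℚ_[p]) (h : (W.map (Int.castRingHom ℚ_[p])).toAffine.Nonsingular x y),
      x ≠ a → ((Affine.Point.some x y h + T : PtP W p) ∈ E0 W p ↔
        ‖x - a‖ ≤ (p : ℝ)⁻¹ ^ 2) := by
    intro x y h hx
    obtain ⟨X, Y, H', e, hX⟩ := add_T H.R h hT hx
    have hpos : 0 < ‖x - a‖ := norm_pos_iff.2 (sub_ne_zero.2 hx)
    rw [hTd, e, H.mem, hX, norm_div, norm_mul, hab, hac, mul_one, one_le_div hpos]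
  have hQT : Q + T ∉ E0 W p := by
    rw [hQd, tr x0 y0 hQ0 hx0a, hx0, not_le]
    nlinarith
  have hQQ : Q + Q ∉ E0 W p := H.dbl hQ0 hx0 hs
  have hneg : ∀ P : PtP W p, P ∉ E0 W p → -P ∉ E0 W p := fun P hP h => hP (by
    have := (E0 W p).neg_mem h
    rwa [neg_neg] at this)
  let R : Fin 4 → PtP W p := fun i => if i = 0 then 0 else if i = 1 then T else
    if i = 2 then Q else -Q
  have t0 : R 0 = 0 := rfl
  have t1 : R 1 = T := rfl
  have t2 : R 2 = Q := rfl
  have t3 : R 3 = -Q := rfl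
  refine index_of3 (E0 W p) R ?_ ?_
  · intro P
    rcases P with _ | ⟨x, y, h⟩
    · refine ⟨0, ?_⟩
      rw [t0, sub_zero]
      exact (E0 W p).zero_mem
    by_cases hx1 : ‖x - a‖ < 1
    swap
    · refine ⟨0, ?_⟩
      rw [t0, sub_zero, H.mem]
      exact not_lt.1 hx1
    by_cases hxa : x = a
    · subst hxa
      have hy : y = 0 := by
        have := H.eqn h
        rw [sub_self, zero_mul, zero_mul] at this
        exact pow_eq_zero_iff two_ne_zero |>.1 this
      subst hy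
      refine ⟨1, ?_⟩
      rw [t1, hTd, sub_self]
      exact (E0 W p).zero_mem
    by_cases hx2 : ‖x - a‖ < (p : ℝ)⁻¹
    · refine ⟨1, ?_⟩
      rw [t1, sub_eq_add_neg, nT, tr x y h hxa]
      exact disc2 hx2
    · have hx3 : ‖x - a‖ = (p : ℝ)⁻¹ := le_antisymm (disc1 hx1) (not_lt.1 hx2)
      rcases H.two_slopes h hx3 with hp1 | hp1
      · refine ⟨2, ?_⟩
        rw [t2, sub_eq_add_neg, hQd, hQn]
        refine H.opp h hQ0' hx3 hx0 hp1 ?_
        have e : -y0 / (x0 - a) + κ = -(y0 / (x0 - a) - κ) := by ring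
        rw [e, norm_neg]
        exact hs
      · refine ⟨3, ?_⟩
        rw [t3, sub_neg_eq_add, add_comm, hQd]
        exact H.opp hQ0 h hx0 hx3 hs hp1
  · have key : ∀ i j, i < j → R i - R j ∉ E0 W p := by
      intro i j hij hmem
      fin_cases i <;> fin_cases j <;> try (exact absurd hij (by decide))
      · have h1 : R 0 - R 1 ∈ E0 W p := hmem
        rw [t0, t1, zero_sub, nT] at h1
        exact hTn h1
      · have h1 : R 0 - R 2 ∈ E0 W p := hmem
        rw [t0, t2, zero_sub] at h1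
        exact hneg _ hQn' h1
      · have h1 : R 0 - R 3 ∈ E0 W p := hmem
        rw [t0, t3, zero_sub, neg_neg] at h1
        exact hQn' h1
      · have h1 : R 1 - R 2 ∈ E0 W p := hmem
        rw [t1, t2] at h1
        have e : T - Q = -(Q + T) := by
          rw [neg_add, nT]
          abel
        rw [e] at h1
        exact hneg _ hQT h1
      · have h1 : R 1 - R 3 ∈ E0 W p := hmem
        rw [t1, t3, sub_neg_eq_add, add_comm] at h1
        exact hQT h1
      · have h1 : R 2 - R 3 ∈ E0 W p := hmem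
        rw [t2, t3, sub_neg_eq_add] at h1
        exact hQQ h1
    intro i j hmem
    rcases lt_trichotomy i j with h | h | h
    · exact absurd hmem (key i j h)
    · exact h
    · refine absurd ?_ (key j i h)
      have e : R j - R i = -(R i - R j) := by abel
      rw [e]
      exact (E0 W p).neg_mem hmem

end split

end Pool.Agent.N218.T21
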