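import Pool.Agent.N218.T21.Split
import Pool.Agent.N637.P21.MinE
import Pool.Agent.N574.QB.Cnt
import Pool.Agent.Y700.Fin

/-!
# The twists of `X_0(21)` by all squarefree integers: minimal equations and Tamagawa numbers
-/

set_option autoImplicit false
set_option linter.unusedSectionVars false
set_option linter.style.haveILetI false

namespace Pool.Agent.N218.T21

open WeierstrassCurve
open Pool.Agent.TH841.SH (IsR)
open Pool.Agent.Y700 (PtP SingRed E0 tam tamProd VR)
open Pool.Agent.Y809.BSD14 (t_E0 index_of)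
open Pool.Agent.W97.MT (IsGloballyMinimal)
open Pool.Agent.N875.X15 (isR_eqn add_T dbl_T norm_two norm_int norm_add_lt norm_sub_lt norm_mul_lt
  norm_mul_lt' norm_lt_of_dvd not_norm_lt)
open Pool.Agent.N637.P21 (Em WN isRp sing_iff nonsingp eqnp tam_ram tam_two tam_three min_Em min_WN
  Em_Δ WN_Δ tam_WN_odd tam_WN_ram)

open scoped Classical

/-! ### reduction of type `I₂` -/

section i2

variable {p : ℕ} [hp : Fact p.Prime] {W : WeierstrassCurve ℤ} {a b c : ℚ_[p]}

/-- **The Tamagawa number in the case of reduction of type `I₂`, split or nonsplit.** -/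
theorem tam_I2 (hR : IsR (W.map (Int.castRingHom ℚ_[p])) a b c)
    (hs : ∀ x y, (W.map (Int.castRingHom ℚ_[p])).toAffine.Nonsingular x y →
      (SingRed W p x y ↔ ‖x - a‖ < 1))
    (hT : (W.map (Int.castRingHom ℚ_[p])).toAffine.Nonsingular a 0)
    (hab : ‖a - b‖ = (p : ℝ)⁻¹) (hac : ‖a - c‖ = 1) : tam W p = 2 := by
  have hmem : ∀ {x y : ℚ_[p]} (h : (W.map (Int.castRingHom ℚ_[p])).toAffine.Nonsingular x y),
      (Affine.Point.some x y h : PtP W p) ∈ E0 W p ↔ 1 ≤ ‖x - a‖ := by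
    intro x y h
    rw [t_E0, ← not_lt]
    constructor
    · intro h1 h2
      exact h1 x y h rfl ((hs x y h).2 h2)
    · intro h1 x' y' h' he hsing
      injection he with e1 e2
      subst e1
      subst e2
      exact h1 ((hs _ _ h').1 hsing)
  set T : PtP W p := Affine.Point.some a 0 hT with hTd
  have dT : T + T = 0 := dbl_T hR hT
  have hTn : T ∉ E0 W p := by
    rw [hTd, hmem, sub_self, norm_zero]
    norm_num
  refine index_of (E0 W p) (fun i : Fin 2 => if i = 0 then 0 else T) ?_ ?_ ?_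
  · intro i
    by_cases hi : i = 0
    · simp [hi]
    · simp only [hi, if_false]
      exact dT
  · intro P
    rcases P with _ | ⟨x, y, h⟩
    · refine ⟨0, ?_⟩
      rw [if_pos rfl, add_zero]
      exact (E0 W p).zero_mem
    by_cases hx1 : ‖x - a‖ < 1
    swap
    · refine ⟨0, ?_⟩
      simp only [if_true, add_zero]
      rw [hmem]
      exact not_lt.1 hx1
    refine ⟨1, ?_⟩
    have e10 : (if (1 : Fin 2) = 0 then (0 : PtP W p) else T) = T := if_neg (by decide)
    rw [e10]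
    by_cases hxa : x = a
    · subst hxa
      have hy : y = 0 := by
        have := (isR_eqn hR).1 h.1
        rw [sub_self, zero_mul, zero_mul] at this
        exact pow_eq_zero_iff two_ne_zero |>.1 this
      subst hy
      rw [dT]
      exact (E0 W p).zero_mem
    obtain ⟨X, Y, H, e, hX⟩ := add_T hR h hT hxa
    have hpos : 0 < ‖x - a‖ := norm_pos_iff.2 (sub_ne_zero.2 hxa)
    rw [hTd, e, hmem, hX, norm_div, norm_mul, hab, hac, mul_one, one_le_div hpos]
    exact disc1 hx1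
  · intro i j hij
    fin_cases i <;> fin_cases j
    · rfl
    · exfalso
      apply hTn
      simpa using hij
    · exfalso
      apply hTn
      simpa using hij
    · rfl

end i2

/-! ### the prime `3` -/

theorem norm_unit {p : ℕ} [hp : Fact p.Prime] {k : ℤ} (h : ¬ (p : ℤ) ∣ k) : ‖(k : ℚ_[p])‖ = 1 := by
  refine le_antisymm (norm_int k) ?_
  rw [← not_lt, Padic.norm_intCast_lt_one_iff]
  exact h

theorem norm_three : ‖(3 : ℚ_[3])‖ = ((3 : ℕ) : ℝ)⁻¹ := by
  have : (3 : ℚ_[3]) = ((3 : ℕ) : ℚ_[3]) := by norm_num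
  rw [this, Padic.norm_p]

theorem norm_seven [Fact (Nat.Prime 7)] : ‖(7 : ℚ_[7])‖ = ((7 : ℕ) : ℝ)⁻¹ := by
  have : (7 : ℚ_[7]) = ((7 : ℕ) : ℚ_[7]) := by norm_num
  rw [this, Padic.norm_p]

theorem sq_three {n : ℤ} (h : n % 3 = 1) : IsSquare (n : ℚ_[3]) := by
  refine Pool.Agent.N574.QB.sq_of_jac (by norm_num) ?_
  rw [jacobiSym.mod_left]
  have e : n % ((3 : ℕ) : ℤ) = 1 := by exact_mod_cast h
  rw [e, jacobiSym.one_left]

theorem sing_three {m : ℤ} (h3 : ¬ (3 : ℤ) ∣ m) (x y : ℚ_[3])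
    (h : ((Em m).map (Int.castRingHom ℚ_[3])).toAffine.Nonsingular x y) :
    SingRed (Em m) 3 x y ↔ ‖x - 0‖ < 1 := by
  rw [sing_iff (by norm_num) h, sub_zero]
  have d9 : ‖(9 : ℚ_[3]) * m‖ < 1 := by
    have := norm_lt_of_dvd (p := 3) (k := 9 * m) ⟨3 * m, by push_cast; ring⟩
    push_cast at this
    exact this
  constructor
  · rintro ⟨-, ⟨c, -⟩ | ⟨c, -⟩ | ⟨c, d⟩⟩
    · exact c
    · exact c
    · exfalso
      have e := norm_sub_lt d c
      have e1 : x + 7 * (m : ℚ_[3]) - (x - 9 * m) = ((16 * m : ℤ) : ℚ_[3]) := by push_cast; ring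
      rw [e1] at e
      exact not_norm_lt (p := 3) (k := 16 * m) (by push_cast; omega) e
  · intro c
    exact ⟨c.le, Or.inl ⟨c, norm_sub_lt c d9⟩⟩

/-- **The Tamagawa number at `3`, split multiplicative reduction.** -/
theorem tam_three_split {m : ℤ} (h3 : m % 3 = 1) : tam (Em m) 3 = 4 := by
  have hm : m ≠ 0 := by rintro rfl; norm_num at h3
  have n3 : ¬ (3 : ℤ) ∣ m := by omega
  have n3' : ¬ ((3 : ℕ) : ℤ) ∣ m := by exact_mod_cast n3
  have nm : ‖(m : ℚ_[3])‖ = 1 := norm_unit n3'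
  obtain ⟨κ, hκ⟩ := sq_three (n := 7 * m) (by omega)
  have n7m : ‖((7 * m : ℤ) : ℚ_[3])‖ = 1 := norm_unit (by push_cast; omega)
  have k1 : ‖κ‖ = 1 := by
    rw [hκ, norm_mul] at n7m
    nlinarith [norm_nonneg κ]
  have H : Spl (Em m) 3 (0 : ℚ_[3]) (9 * m) (-7 * m) κ := by
    refine ⟨by norm_num, isRp 3 m, sing_three n3, ?_, ?_, k1⟩
    · have e : (9 : ℚ_[3]) * m - 0 = 3 * (3 * m) := by ring
      rw [e, norm_mul, norm_mul, norm_three, nm, mul_one, pow_two]
    · rw [pow_two, ← hκ]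
      push_cast
      ring
  refine H.tam4 (nonsingp hm (Or.inl rfl)) ?_
  obtain ⟨z, hz⟩ := sq_three (n := (1 - 3 * m) * (3 + 7 * m)) (by
    have e : (1 - 3 * m) * (3 + 7 * m) = 3 * (1 - 3 * m) + 7 * m - 21 * (m * m) := by ring
    omega)
  have hz' : z * z = (1 - 3 * (m : ℚ_[3])) * (3 + 7 * m) := by
    rw [← hz]
    push_cast
    ring
  have hz0 : z ≠ 0 := by
    rintro rfl
    have h1 : (1 - 3 * m) * (3 + 7 * m) = 0 := by
      rw [mul_zero] at hz
      exact_mod_cast hz
    rcases mul_eq_zero.1 h1 with h | h <;> omega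
  refine ⟨3, 3 * z, ?_, ?_⟩
  · rw [Affine.nonsingular_iff, isR_eqn (isRp 3 m)]
    constructor
    · linear_combination 9 * hz'
    · right
      simp only [Em, map_a₁, map_a₃, eq_intCast]
      push_cast
      intro h
      apply hz0
      have : (6 : ℚ_[3]) * z = 0 := by linear_combination h
      exact (mul_eq_zero.1 this).resolve_left (by norm_num)
  · rw [sub_zero, norm_three]

/-! ### the prime `7` -/

theorem sing_seven [Fact (Nat.Prime 7)] {m : ℤ} (h7 : ¬ (7 : ℤ) ∣ m) (x y : ℚ_[7])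
    (h : ((Em m).map (Int.castRingHom ℚ_[7])).toAffine.Nonsingular x y) :
    SingRed (Em m) 7 x y ↔ ‖x - 0‖ < 1 := by
  rw [sing_iff (by norm_num) h, sub_zero]
  have d7 : ‖(7 : ℚ_[7]) * m‖ < 1 := by
    have := norm_lt_of_dvd (p := 7) (k := 7 * m) ⟨m, by push_cast; ring⟩
    push_cast at this
    exact this
  constructor
  · rintro ⟨-, ⟨c, -⟩ | ⟨c, -⟩ | ⟨c, d⟩⟩
    · exact c
    · exact c
    · exfalso
      have e := norm_sub_lt d c
      have e1 : x + 7 * (m : ℚ_[7]) - (x - 9 * m) = ((16 * m : ℤ) : ℚ_[7]) := by push_cast; ring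
      rw [e1] at e
      exact not_norm_lt (p := 7) (k := 16 * m) (by push_cast; omega) e
  · intro c
    exact ⟨c.le, Or.inr (Or.inl ⟨c, norm_add_lt c d7⟩)⟩

/-- **The Tamagawa number at `7`**, `7 ∤ m`. -/
theorem tam_seven_all [Fact (Nat.Prime 7)] {m : ℤ} (h7 : ¬ (7 : ℤ) ∣ m) : tam (Em m) 7 = 2 := by
  have hm : m ≠ 0 := by rintro rfl; exact h7 (dvd_zero _)
  have n7 : ¬ ((7 : ℕ) : ℤ) ∣ m := by exact_mod_cast h7
  have nm : ‖(m : ℚ_[7])‖ = 1 := norm_unit n7
  have hR : IsR ((Em m).map (Int.castRingHom ℚ_[7])) (0 : ℚ_[7]) (-7 * m) (9 * m) := by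
    refine ⟨?_, ?_, ?_, ?_, ?_⟩ <;> simp [Em] <;> ring
  refine tam_I2 hR (sing_seven h7) (nonsingp hm (Or.inl rfl)) ?_ ?_
  · have e : (0 : ℚ_[7]) - -7 * m = 7 * m := by ring
    rw [e, norm_mul, norm_seven, nm, mul_one]
  · have e : (0 : ℚ_[7]) - 9 * m = ((-9 * m : ℤ) : ℚ_[7]) := by push_cast; ring
    rw [e]
    exact norm_unit (by push_cast; omega)

/-! ### the product of the Tamagawa numbers -/

/-- the minimal equation of the twist by `m` -/
def EE (m : ℤ) : WeierstrassCurve ℤ := if m % 4 = 1 then WN m else Em m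

/-- the absolute value of the discriminant of `ℚ(√m)` -/
def Kd (m : ℤ) : ℕ := if m % 4 = 1 then m.natAbs else 4 * m.natAbs

/-- the contribution of `3` if it does not divide `m` -/
def t3 (m : ℤ) : ℕ := if (3 : ℤ) ∣ m then 1 else if m % 3 = 1 then 4 else 2

/-- the contribution of `7` if it does not divide `m` -/
def t7 (m : ℤ) : ℕ := if (7 : ℤ) ∣ m then 1 else 2

/-- **The equation is globally minimal.** -/
theorem min_EE {m : ℤ} (hs : Squarefree m) : IsGloballyMinimal (EE m) := by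
  unfold EE
  split_ifs with h
  · exact min_WN h hs
  · exact min_Em h hs

theorem pf_WN {m : ℤ} (h4 : m % 4 = 1) :
    (WN m).Δ.natAbs.primeFactors = insert 3 (insert 7 m.natAbs.primeFactors) := by
  have hn0 : m.natAbs ≠ 0 := by omega
  have e : (WN m).Δ.natAbs = 3 ^ 4 * 7 ^ 2 * m.natAbs ^ 6 := by
    rw [WN_Δ h4, Int.natAbs_mul, Int.natAbs_pow]
    norm_num
  rw [e, Nat.primeFactors_mul (by norm_num) (pow_ne_zero _ hn0),
    Nat.primeFactors_mul (by norm_num) (by norm_num), Nat.primeFactors_pow _ (by norm_num),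
    Nat.primeFactors_pow _ (by norm_num), Nat.primeFactors_pow _ (by norm_num),
    Nat.Prime.primeFactors Nat.prime_three, Nat.Prime.primeFactors (by norm_num : Nat.Prime 7),
    Finset.insert_eq, Finset.insert_eq, Finset.union_assoc]

theorem pf_Em {m : ℤ} (hm : m ≠ 0) :
    (Em m).Δ.natAbs.primeFactors = insert 3 (insert 7 (4 * m.natAbs).primeFactors) := by
  have hm' : m.natAbs ≠ 0 := Int.natAbs_ne_zero.2 hm
  have e : (Em m).Δ.natAbs = 3 ^ 4 * 7 ^ 2 * (2 ^ 12 * m.natAbs ^ 6) := by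
    rw [Em_Δ, Int.natAbs_mul, Int.natAbs_pow]
    norm_num
    ring
  have h4 : (4 : ℕ).primeFactors = {2} := by
    rw [show (4 : ℕ) = 2 ^ 2 by norm_num, Nat.primeFactors_pow _ (by norm_num),
      Nat.Prime.primeFactors Nat.prime_two]
  rw [e, Nat.primeFactors_mul (by norm_num) (mul_ne_zero (by norm_num) (pow_ne_zero _ hm')),
    Nat.primeFactors_mul (by norm_num) (by norm_num), Nat.primeFactors_pow _ (by norm_num),
    Nat.primeFactors_pow _ (by norm_num),
    Nat.primeFactors_mul (by norm_num) (pow_ne_zero _ hm'), Nat.primeFactors_pow _ (by norm_num),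
    Nat.primeFactors_pow _ (by norm_num),
    Nat.Prime.primeFactors Nat.prime_three, Nat.Prime.primeFactors (by norm_num : Nat.Prime 7),
    Nat.Prime.primeFactors Nat.prime_two, Nat.primeFactors_mul (by norm_num) hm', h4,
    Finset.insert_eq, Finset.insert_eq, Finset.union_assoc]

/-- the prime factors of the discriminant of the minimal equation -/
theorem pf_EE {m : ℤ} (hm : m ≠ 0) :
    (EE m).Δ.natAbs.primeFactors = insert 3 (insert 7 (Kd m).primeFactors) := by
  unfold EE Kd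
  split_ifs with h
  · exact pf_WN h
  · exact pf_Em hm

/-- the product over the prime factors, from the local values -/
lemma prod_tam3 (n : ℕ) (hn : n ≠ 0) (f : ℕ → ℕ) (a3 a7 : ℕ) (h4 : ∀ p ∈ n.primeFactors, f p = 4)
    (h3 : ¬ 3 ∣ n → f 3 = a3) (h5 : ¬ 7 ∣ n → f 7 = a7) (b3 : 3 ∣ n → a3 = 1) (b7 : 7 ∣ n → a7 = 1) :
    ∏ p ∈ insert 3 (insert 7 n.primeFactors), f p = 4 ^ n.primeFactors.card * (a3 * a7) := by
  have p7 : Nat.Prime 7 := by norm_num
  have m3 : 3 ∈ n.primeFactors ↔ 3 ∣ n := by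
    rw [Nat.mem_primeFactors]
    exact ⟨fun h => h.2.1, fun h => ⟨Nat.prime_three, h, hn⟩⟩
  have m5 : 7 ∈ n.primeFactors ↔ 7 ∣ n := by
    rw [Nat.mem_primeFactors]
    exact ⟨fun h => h.2.1, fun h => ⟨p7, h, hn⟩⟩
  have hp : ∏ p ∈ n.primeFactors, f p = 4 ^ n.primeFactors.card := by
    rw [Finset.prod_congr rfl h4, Finset.prod_const]
  have h5' : ∏ p ∈ insert 7 n.primeFactors, f p = 4 ^ n.primeFactors.card * a7 := by
    by_cases h : 7 ∣ n
    · rw [b7 h, Finset.insert_eq_of_mem (m5.2 h), hp, mul_one]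
    · rw [Finset.prod_insert (fun h' => h (m5.1 h')), hp, h5 h]
      ring
  by_cases h : 3 ∣ n
  · rw [Finset.insert_eq_of_mem (Finset.mem_insert_of_mem (m3.2 h)), h5', b3 h]
    ring
  · rw [Finset.prod_insert, h5', h3 h]
    · ring
    · intro h'
      rcases Finset.mem_insert.1 h' with h' | h'
      · norm_num at h'
      · exact h (m3.1 h')

theorem Kd_ne {m : ℤ} (hm : m ≠ 0) : Kd m ≠ 0 := by
  unfold Kd
  split_ifs <;> omega

/-- the odd primes dividing the discriminant -/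
theorem dvd_Kd {m : ℤ} {p : ℕ} (hp : p.Prime) (h2 : p ≠ 2) : p ∣ Kd m ↔ (p : ℤ) ∣ m := by
  unfold Kd
  rw [Int.natCast_dvd]
  split_ifs
  · rfl
  · constructor
    · intro h
      rcases hp.dvd_mul.1 h with h5 | h5
      · have h6 : p ∣ 2 ^ 2 := by simpa using h5
        exact absurd ((Nat.prime_dvd_prime_iff_eq hp Nat.prime_two).1 (hp.dvd_of_dvd_pow h6)) h2
      · exact h5
    · intro h
      exact h.mul_left 4

/-- the local Tamagawa numbers away from `2` -/
theorem tam_EE_odd {p : ℕ} [Fact p.Prime] (h2 : p ≠ 2) {m : ℤ} : tam (EE m) p = tam (Em m) p := by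
  unfold EE
  split_ifs with h
  · exact tam_WN_odd h2 h
  · rfl

/-- **The product of the Tamagawa numbers.** -/
theorem tamProd_EE {m : ℤ} (hs : Squarefree m) :
    tamProd (EE m) = 4 ^ (Kd m).primeFactors.card * (t3 m * t7 m) := by
  have p7 : Nat.Prime 7 := by norm_num
  have hm0 := hs.ne_zero
  unfold tamProd
  rw [pf_EE hm0]
  refine prod_tam3 (Kd m) (Kd_ne hm0) _ (t3 m) (t7 m) ?_ ?_ ?_ ?_ ?_
  · intro p hp
    obtain ⟨h1, h2, -⟩ := Nat.mem_primeFactors.1 hp
    rw [dif_pos h1]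
    haveI := Fact.mk h1
    by_cases hp2 : p = 2
    · subst hp2
      have h4 : m % 4 ≠ 1 := by
        intro h4
        unfold Kd at h2
        rw [if_pos h4] at h2
        omega
      have e : EE m = Em m := if_neg h4
      rw [e]
      exact tam_two hs h4
    · rw [tam_EE_odd hp2]
      exact tam_ram hp2 hs ((dvd_Kd h1 hp2).1 h2)
  · intro h
    rw [dif_pos Nat.prime_three, tam_EE_odd (by norm_num)]
    have h3 : ¬ (3 : ℤ) ∣ m := fun h' => h ((dvd_Kd Nat.prime_three (by norm_num)).2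
      (by exact_mod_cast h'))
    unfold t3
    rw [if_neg h3]
    split_ifs with h31
    · exact tam_three_split h31
    · exact tam_three (by omega)
  · intro h
    rw [dif_pos p7]
    haveI := Fact.mk p7
    rw [tam_EE_odd (by norm_num)]
    have h7 : ¬ (7 : ℤ) ∣ m := fun h' => h ((dvd_Kd p7 (by norm_num)).2 (by exact_mod_cast h'))
    unfold t7
    rw [if_neg h7]
    exact tam_seven_all h7
  · intro h
    have := (dvd_Kd Nat.prime_three (by norm_num)).1 h
    unfold t3
    rw [if_pos (by exact_mod_cast this)]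
  · intro h
    have := (dvd_Kd p7 (by norm_num)).1 h
    unfold t7
    rw [if_pos (by exact_mod_cast this)]

end Pool.Agent.N218.T21
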